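import Pool.Agent.N929.OM.Stm
import Pool.Agent.N499.ON.FE

/-!
# OM/FE: finite energy of the loop O(n) weights in general domains (after N499/ON/FE)
-/

set_option autoImplicit false

namespace Pool.Agent.N2.OM

open Finset
open Pool.Agent.N929.ON (St rt front Val step flip Tch S_INJ)
open Pool.Agent.N929.OM
open Pool.Agent.N499.ON (orb Per orb_eq per_iter near touch near_card touch_card mem_near mem_touch
  step_eq iter_eq pow_cmp)
open scoped Classical

noncomputable section

/-- the states near the domain -/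
def FD (V : Finset (ℤ × ℤ)) : Finset St := V.biUnion near

theorem mem_FD {V : Finset (ℤ × ℤ)} {s : St} (h : Inn V s) : s ∈ FD V := by
  unfold FD
  rw [mem_biUnion]
  rcases h with h | h
  · exact ⟨_, h, mem_near (Or.inl rfl)⟩
  · exact ⟨_, h, mem_near (Or.inr rfl)⟩

theorem loops_fin (V : Finset (ℤ × ℤ)) (σ : ℤ × ℤ → Bool) : (loops V σ).Finite := by
  refine ((FD V).finite_toSet.finite_subsets).subset ?_
  rintro O ⟨s, _, _, _, hO⟩
  intro t ht
  exact mem_FD (hO t ht)

theorem loops_le {V : Finset (ℤ × ℤ)} {σ σ' : ℤ × ℤ → Bool} {f : ℤ × ℤ}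
    (h : ∀ g, g ≠ f → σ' g = σ g) : (loops V σ').ncard ≤ (loops V σ).ncard + 18 := by
  have hsub : loops V σ' ⊆ loops V σ ∪ orb σ' '' (touch f : Set St) := by
    rintro O ⟨s, hv, hp, rfl, hI⟩
    by_cases ht : ∃ t ∈ orb σ' s, Tch f t
    · obtain ⟨t, ht1, ht2⟩ := ht
      right
      exact ⟨t, mem_touch ht2, orb_eq hp ht1⟩
    · push Not at ht
      left
      have hi := iter_eq h ht
      have hs : ¬ Tch f s := ht s ⟨0, rfl⟩
      refine ⟨s, ⟨?_, ?_⟩, ?_, ?_, hI⟩
      · rw [← h _ fun e => hs (Or.inl e)]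
        exact hv.1
      · rw [← h _ fun e => hs (Or.inr (Or.inl e))]
        exact hv.2
      · obtain ⟨i, h1, h2⟩ := hp
        exact ⟨i, h1, by rw [hi, h2]⟩
      · ext t
        constructor
        · rintro ⟨i, h1⟩
          exact ⟨i, by rw [hi, h1]⟩
        · rintro ⟨i, h1⟩
          exact ⟨i, by rw [← hi, h1]⟩
  have hfin : (loops V σ ∪ orb σ' '' (touch f : Set St)).Finite :=
    (loops_fin V σ).union ((touch f).finite_toSet.image _)
  refine (Set.ncard_le_ncard hsub hfin).trans ((Set.ncard_union_le _ _).trans ?_)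
  have h1 : (orb σ' '' (touch f : Set St)).ncard ≤ 18 := by
    refine (Set.ncard_image_le (touch f).finite_toSet).trans ?_
    rw [Set.ncard_coe_finset]
    exact touch_card f
  omega

theorem edg_le {V : Finset (ℤ × ℤ)} {σ σ' : ℤ × ℤ → Bool} {f : ℤ × ℤ}
    (h : ∀ g, g ≠ f → σ' g = σ g) : edg V σ' ≤ edg V σ + 12 := by
  unfold edg
  have hfin : {s : St | Val σ s ∧ Inn V s}.Finite :=
    (FD V).finite_toSet.subset fun s hs => mem_FD hs.2
  have hsub : {s : St | Val σ' s ∧ Inn V s} ⊆
      {s : St | Val σ s ∧ Inn V s} ∪ (near f : Set St) := by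
    intro s hs
    by_cases hn : s.1 = f ∨ rt s = f
    · right
      exact mem_near hn
    · push Not at hn
      left
      refine ⟨⟨?_, ?_⟩, hs.2⟩
      · rw [← h _ hn.1]
        exact hs.1.1
      · rw [← h _ hn.2]
        exact hs.1.2
  refine (Set.ncard_le_ncard hsub (hfin.union (near f).finite_toSet)).trans
    ((Set.ncard_union_le _ _).trans ?_)
  have h1 := near_card f
  rw [Set.ncard_coe_finset]
  omega

/-- FE -/
theorem fe (_hinj : Pool.Agent.N929.ON.S_INJ) : S_FE := by
  intro n x hn hx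
  refine ⟨(min x (1 / x)) ^ 12 * (min n (1 / n)) ^ 18, ?_, ?_⟩
  · have h1 : 0 < min x (1 / x) := lt_min hx (by positivity)
    have h2 : 0 < min n (1 / n) := lt_min hn (by positivity)
    positivity
  intro V σ
  refine ⟨loops_fin V σ, ?_, fun f _ => ?_⟩
  · unfold wt
    positivity
  have hg : ∀ g, g ≠ f → flip f σ g = σ g := fun g hg => Function.update_of_ne hg _ _
  have e1 := edg_le (V := V) hg
  have e2 := edg_le (V := V) (σ := flip f σ) (σ' := σ) fun g h => (hg g h).symm
  have l1 := loops_le (V := V) hg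
  have l2 := loops_le (V := V) (σ := flip f σ) (σ' := σ) fun g h => (hg g h).symm
  have c1 := pow_cmp hx e1 e2
  have c2 := pow_cmp hn l1 l2
  unfold wt
  have c3 := mul_le_mul c1 c2 (by
    have h2 : 0 < min n (1 / n) := lt_min hn (by positivity)
    positivity) (by positivity)
  refine le_trans (le_of_eq ?_) c3
  ring

end

end Pool.Agent.N2.OM
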